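import Pool.Agent.Lead.TEx5

set_option autoImplicit false

namespace Pool.Agent.Results.MP_160dec_gt.Q1

open Pool.Agent.TEx

theorem result : ∀ (X : Type) [TopologicalSpace X] [T35Space X],
    TExtral X → TExtendial X → TopologicalSpace.MetrizableSpace X :=
  fun _ _ _ h h' => metr_of_extendial h h'

end Pool.Agent.Results.MP_160dec_gt.Q1
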